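import Mathlib
import Pool.Agent.H11.PenDP
set_option autoImplicit false
set_option maxRecDepth 100000
namespace Pool.Agent.Results.MP_daa8b9_co.Counter
open Finset

/-- number of classes of the equivalence relation generated by `r` -/
noncomputable def nCl {D : Type} (r : D → D → Prop) : ℕ := Nat.card (Quot r)

/-- the other dart (half-edge) of the same edge -/
def flip {E : Type} (d : E × Bool) : E × Bool := (d.1, !d.2)

/-- `σ` is the rotation system of a connected plane graph with edge set `E` in which every vertex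
has degree 3: vertices are the cycles of `σ`, faces the cycles of `σ ∘ flip`, and `V + F = E + 2`. -/
def IsPlaneCubic {E : Type} (σ : Equiv.Perm (E × Bool)) : Prop :=
  (∀ d, σ d ≠ d ∧ σ (σ (σ d)) = d) ∧
  nCl (fun x y => y = σ x ∨ y = flip x) = 1 ∧
  nCl (fun x y => y = σ x) + nCl (fun x y => y = σ (flip x)) = Nat.card E + 2

/-- number of 3-edge-colourings -/
noncomputable def colourings {E : Type} (σ : Equiv.Perm (E × Bool)) : ℕ :=
  Nat.card {c : E → Fin 3 // ∀ d, d.1 ≠ (σ d).1 → c d.1 ≠ c (σ d).1}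

/-- number of closed curves of the state `s` (`false` = white, `true` = crossing); the medial edge
(corner) between the darts `x` and `σ x` is named `x` -/
noncomputable def curves {E : Type} (σ : Equiv.Perm (E × Bool)) (s : E → Bool) : ℕ :=
  nCl (fun x y => ∃ d, (s d.1 = false ∧ x = σ⁻¹ d ∧ y = flip d) ∨
    (s d.1 = true ∧ ((x = d ∧ y = flip d) ∨ (x = σ⁻¹ d ∧ y = σ⁻¹ (flip d)))))

/-- the Penrose polynomial evaluated at `z` -/
noncomputable def penrose {E : Type} [Fintype E] [DecidableEq E] (σ : Equiv.Perm (E × Bool))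
    (z : ℤ) : ℤ :=
  ∑ s : E → Bool, (-1) ^ (univ.filter (fun e => s e = true)).card * z ^ curves σ s

open Pool.Agent.H11.Merge Pool.Agent.H11.PenDP

abbrev D := Fin 21 × Bool

def num (d : D) : ℕ := 2 * d.1.val + d.2.toNat
def dec (n : ℕ) : D := (Fin.ofNat 21 (n / 2), n % 2 == 1)
def sigL : List ℕ := [5, 10, 1, 34, 6, 9, 20, 3, 14, 0, 2, 13, 8, 16, 12, 22, 11, 19, 15, 28, 4, 38, 18, 25, 21, 26, 23, 36, 17, 31, 27, 33, 41, 29, 7, 32, 30, 39, 24, 40, 37, 35]
def invL : List ℕ := [9, 2, 10, 7, 20, 0, 4, 34, 12, 5, 1, 16, 14, 11, 8, 18, 13, 28, 22, 17, 6, 24, 15, 26, 38, 23, 25, 30, 19, 33, 36, 29, 35, 31, 3, 41, 27, 40, 21, 37, 39, 32]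
def idxL : List ℕ := [40, 35, 41, 11, 38, 36, 24, 39, 31, 37, 34, 32, 33, 28, 30, 23, 29, 26, 27, 16, 25, 6, 22, 20, 21, 18, 19, 8, 17, 14, 15, 12, 3, 13, 10, 9, 7, 4, 5, 0, 1, 2]
def idx (d : D) : ℕ := idxL.getD (num d) 0
def σ0 : Equiv.Perm D where
  toFun d := dec (sigL.getD (num d) 0)
  invFun d := dec (invL.getD (num d) 0)
  left_inv := by intro d; revert d; decide +kernel
  right_inv := by intro d; revert d; decide +kernel
def esN : List (ℕ × ℕ × ℕ × ℕ) := [(37, 40, 41, 35), (34, 41, 39, 11), (25, 38, 40, 36), (38, 24, 10, 39), (33, 31, 36, 37), (35, 34, 29, 32), (30, 33, 32, 28), (31, 30, 27, 23), (28, 29, 17, 26), (22, 27, 26, 16), (24, 25, 21, 6), (23, 22, 19, 20), (5, 21, 20, 18), (18, 19, 15, 8), (16, 17, 13, 14), (7, 15, 14, 12), (9, 3, 12, 13), (11, 10, 2, 9), (8, 7, 1, 4), (6, 5, 4, 0), (0, 1, 3, 2)]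
def msN : List ℕ := [42, 41, 40, 38, 36, 34, 32, 30, 28, 26, 24, 22, 20, 18, 16, 14, 12, 9, 7, 4, 0]
def cfL : List (List ℕ) := [[], [0], [0], [1, 2], [0, 2], [0, 1], [4, 5], [4, 6], [5, 6], [7, 8], [2, 3], [7, 9], [10, 11], [11, 12], [8, 9], [13, 14], [14, 15], [1, 3, 16], [13, 15], [10, 12, 18], [16, 17, 18, 19]]
def cf (i : ℕ) : List ℕ := cfL.getD i []
def k0 : ℕ := code (fun x => x) 42
def allD : List D := (List.range 42).map dec

theorem lab_inj : Function.Injective (fun d : D => gt k0 (idx d)) := by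
  intro a b; revert a b; decide +kernel

theorem mem_allD : ∀ d : D, d ∈ allD := by decide +kernel

theorem idx_lt : ∀ d : D, idx d < 42 := by decide +kernel

theorem count_list (L : List (D × D)) :
    Nat.card (Quot (fun x y => (x, y) ∈ L)) + mc (gt k0) (L.map (Prod.map idx idx)) = 42 := by
  rw [← mc_map, key' L _ lab_inj]; rfl

theorem count_list' (L : List (D × D)) :
    Nat.card (Quot (fun x y => (x, y) ∈ L)) + mcC 42 (L.map (Prod.map idx idx)) k0 = 42 := by
  rw [mcC_eq, count_list]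
  intro p hp
  obtain ⟨q, -, rfl⟩ := List.mem_map.mp hp
  exact ⟨idx_lt _, idx_lt _⟩

theorem mem_gr (f : D → D) (x y : D) : (x, y) ∈ allD.map (fun d => (d, f d)) ↔ y = f x := by
  simp only [List.mem_map, Prod.mk.injEq]
  constructor
  · rintro ⟨d, -, rfl, rfl⟩; rfl
  · rintro rfl; exact ⟨x, mem_allD x, rfl, rfl⟩

theorem hV : nCl (fun x y => y = σ0 x) = 14 := by
  have h := count_list' (allD.map (fun d => (d, σ0 d)))
  have h2 : mcC 42 ((allD.map (fun d => (d, σ0 d))).map (Prod.map idx idx)) k0 = 28 := by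
    decide +kernel
  rw [h2] at h
  simp only [mem_gr] at h
  unfold nCl; omega

theorem hF : nCl (fun x y => y = σ0 (flip x)) = 9 := by
  have h := count_list' (allD.map (fun d => (d, σ0 (flip d))))
  have h2 : mcC 42 ((allD.map (fun d => (d, σ0 (flip d)))).map (Prod.map idx idx)) k0 = 33 := by
    decide +kernel
  rw [h2] at h
  have e : (fun x y : D => (x, y) ∈ allD.map (fun d => (d, σ0 (flip d)))) =
      fun x y => y = σ0 (flip x) := by
    funext x y; exact propext (mem_gr (fun d => σ0 (flip d)) x y)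
  rw [e] at h
  exact Nat.add_right_cancel (m := 33) h

theorem hC : nCl (fun x y => y = σ0 x ∨ y = flip x) = 1 := by
  have h := count_list' (allD.map (fun d => (d, σ0 d)) ++ allD.map (fun d => (d, flip d)))
  have h2 : mcC 42 ((allD.map (fun d => (d, σ0 d)) ++ allD.map (fun d => (d, flip d))).map
      (Prod.map idx idx)) k0 = 41 := by
    decide +kernel
  rw [h2] at h
  simp only [List.mem_append, mem_gr] at h
  unfold nCl; omega

def gD (e : Fin 21) : D × D × D × D := (σ0⁻¹ (e, false), (e, false), σ0⁻¹ (e, true), (e, true))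

theorem es_eq : (List.ofFn gD).map (fun e => (idx e.1, idx e.2.1, idx e.2.2.1, idx e.2.2.2)) = esN := by
  decide +kernel

theorem hcurves (s : Fin 21 → Bool) : curves σ0 s + mc (gt k0) (prs esN (List.ofFn s)) = 42 := by
  have h := count_list (prs (List.ofFn gD) (List.ofFn s))
  rw [prs_map, es_eq] at h
  rw [← h, curves, nCl, quot_card_congr _ (fun x y => (x, y) ∈ prs (List.ofFn gD) (List.ofFn s))]
  · rintro x y ⟨⟨e, b⟩, h⟩
    cases b
    · apply Relation.EqvGen.rel
      rw [mem_prs]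
      refine ⟨e, ?_⟩
      rcases h with ⟨h, rfl, rfl⟩ | ⟨h, ⟨rfl, rfl⟩ | ⟨rfl, rfl⟩⟩
      · exact Or.inl ⟨h, Or.inl rfl⟩
      · exact Or.inr ⟨h, Or.inl rfl⟩
      · exact Or.inr ⟨h, Or.inr rfl⟩
    · rcases h with ⟨h, rfl, rfl⟩ | ⟨h, ⟨rfl, rfl⟩ | ⟨rfl, rfl⟩⟩
      · exact Relation.EqvGen.rel _ _ ((mem_prs _ _ _ _).2 ⟨e, Or.inl ⟨h, Or.inr rfl⟩⟩)
      · exact (Relation.EqvGen.rel _ _ ((mem_prs _ _ _ _).2 ⟨e, Or.inr ⟨h, Or.inl rfl⟩⟩)).symm _ _
      · exact (Relation.EqvGen.rel _ _ ((mem_prs _ _ _ _).2 ⟨e, Or.inr ⟨h, Or.inr rfl⟩⟩)).symm _ _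
  · intro x y h0
    apply Relation.EqvGen.rel
    have h1 := (mem_prs _ _ _ _).1 h0
    clear h0
    obtain ⟨e, ⟨h, h' | h'⟩ | ⟨h, h' | h'⟩⟩ := h1 <;>
      obtain ⟨rfl, rfl⟩ := Prod.mk.inj h'
    · exact ⟨(e, false), Or.inl ⟨h, rfl, rfl⟩⟩
    · exact ⟨(e, true), Or.inl ⟨h, rfl, rfl⟩⟩
    · exact ⟨(e, false), Or.inr ⟨h, Or.inl ⟨rfl, rfl⟩⟩⟩
    · exact ⟨(e, false), Or.inr ⟨h, Or.inr ⟨rfl, rfl⟩⟩⟩

theorem hrun : run esN msN [(k0, 1)] = -78966 := by decide +kernel

theorem par (a b : ℕ) (h : a + b = 42) : (-1 : ℤ) ^ a = (-1) ^ b := by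
  rcases Nat.even_or_odd a with he | he
  · rw [he.neg_one_pow, Even.neg_one_pow]
    rw [Nat.even_iff] at he ⊢; omega
  · rw [he.neg_one_pow, Odd.neg_one_pow]
    rw [Nat.odd_iff] at he ⊢; omega

theorem hok : okb esN msN = true := by decide +kernel

theorem tot_single (k : ℕ) (es : List (ℕ × ℕ × ℕ × ℕ)) : tot [(k, 1)] es = G (gt k) es := by
  simp only [tot, List.map_cons, List.map_nil, List.sum_cons, List.sum_nil, one_mul, add_zero]

theorem hG : G (gt k0) esN = -78966 := by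
  rw [← tot_single, ← run_eq esN msN [(k0, 1)] hok, hrun]

theorem hP : penrose σ0 (-1) = -78966 := by
  rw [← hG]
  unfold G
  rw [show esN.length = 21 from rfl, ← sum_eq_sumL, penrose]
  refine Finset.sum_congr rfl (fun s _ => ?_)
  rw [count_ofFn, par _ _ (hcurves s)]

theorem hcf : ∀ i, ∀ j ∈ cf i, j < i := by
  intro i
  by_cases h : i < 21
  · revert i; decide +kernel
  · intro j hj
    rw [cf, List.getD_eq_default _ _ (by simp [cfL]; omega)] at hj
    simp at hj

theorem c1 : ∀ d : D, (σ0 d).1.val ∈ cf d.1.val ∨ d.1.val ∈ cf (σ0 d).1.val := by decide +kernel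
theorem c2 : ∀ i j : Fin 21, j.val ∈ cf i.val → i ≠ j ∧
    ∃ d : D, (d.1 = i ∧ (σ0 d).1 = j) ∨ (d.1 = j ∧ (σ0 d).1 = i) := by decide +kernel

theorem col_iff (c : Fin 21 → Fin 3) : okR cf [] (List.ofFn c) = true ↔
    ∀ d : D, d.1 ≠ (σ0 d).1 → c d.1 ≠ c (σ0 d).1 := by
  rw [okR_iff cf hcf]
  have hg : ∀ i : Fin 21, (List.ofFn c).getD i.val 0 = c i := by
    intro i; rw [List.getD_eq_getElem _ _ (by simp)]; simp only [List.getElem_ofFn]
  simp only [List.length_nil, zero_le, zero_add, List.length_ofFn, List.nil_append, true_imp_iff]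
  constructor
  · intro h d _
    rcases c1 d with h' | h'
    · have := h _ d.1.isLt _ h'
      rw [hg, hg] at this; exact this.symm
    · have := h _ (σ0 d).1.isLt _ h'
      rw [hg, hg] at this; exact this
  · intro h i hi j hj
    have hj' : j < 21 := (hcf i j hj).trans hi
    obtain ⟨hne, d, ⟨h1, h2⟩ | ⟨h1, h2⟩⟩ := c2 ⟨i, hi⟩ ⟨j, hj'⟩ hj
    · have := h d (by rw [h1, h2]; exact hne)
      rw [h1, h2, ← hg, ← hg] at this; exact this.symm
    · have := h d (by rw [h1, h2]; exact hne.symm)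
      rw [h1, h2, ← hg, ← hg] at this; exact this

theorem hcol : colourings σ0 = 54 := by
  have h : cnt cf 21 [] = 54 := by decide +kernel
  rw [← cnt_eq, ← sum_eq_sumL] at h
  simp only [col_iff] at h
  rw [Finset.sum_boole] at h
  rw [colourings, Nat.card_eq_fintype_card, Fintype.card_subtype]
  exact_mod_cast h

/-- A connected plane cubic graph with 21 edges, 54 three-edge-colourings and
`P_G(-1) = -78966`, which is not a multiple of 54. -/
theorem result : ∃ σ : Equiv.Perm (Fin 21 × Bool), IsPlaneCubic σ ∧ colourings σ = 54 ∧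
    penrose σ (-1) = -78966 ∧ ¬ ((colourings σ : ℤ) ∣ penrose σ (-1)) := by
  refine ⟨σ0, ⟨by decide +kernel, hC, ?_⟩, hcol, hP, ?_⟩
  · rw [hV, hF]; simp
  · rw [hcol, hP]; decide

end Pool.Agent.Results.MP_daa8b9_co.Counter
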